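import Pool.Agent.Helper8.Sey.Basic

/-! Project SEY, packet CORE. -/

namespace Pool.Agent.Helper75.Sey

open Pool.Agent.Helper8.Sey
open Pool.Agent.Helper41.Girth4 (Pr Pr_mono Pr_exists_le Pr_nonneg)

section

variable {V : Type} (P : Sys V)

instance labNonempty : Nonempty P.Lab :=
  ⟨(1, fun _ => ⟨0, P.hL⟩)⟩

/-- The event counted in the block of class `cl l a` at time `j`. -/
def Ev (R : ℕ → V → ZMod P.N → ℕ) (j : ℕ) (a : Fin P.q) (v : V) (ω : P.Om) : Prop :=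
  P.T R ω j v ∧ P.cls ω v = P.cl (P.part v) a

open Classical in
/-- The members of the part `l`. -/
noncomputable def Sl [Fintype V] (l : ℕ) : Finset V := Finset.univ.filter fun v => P.part v = l

theorem card_Sl [Fintype V] (l : ℕ) : (Sl P l).card = Nat.card {v // P.part v = l} := by
  classical
  unfold Sl
  rw [Nat.card_eq_fintype_card, Fintype.card_subtype]

theorem mem_Sl [Fintype V] (l : ℕ) (v : V) : v ∈ Sl P l ↔ P.part v = l := by
  classical
  simp [Sl]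

/-- The bad event of the part `l`. -/
def Bad [Fintype V] (R : ℕ → V → ZMod P.N → ℕ) (p δ1 : ℝ) (l : ℕ) (ω : P.Om) : Prop :=
  ∃ x ∈ (Finset.range P.J ×ˢ (Finset.univ : Finset (Fin P.q))),
    (Nat.card {v // v ∈ Sl P l ∧ Ev P R x.1 x.2 v ω} : ℝ) ≤ (1 - δ1) * p * (Sl P l).card

/-- The region of the part `l`. -/
def Wl (l : ℕ) : Set V := {w | P.part w = l ∨ P.part w + 1 = l ∨ (l = 0 ∧ P.part w + 1 = P.K)}

theorem Bad_loc [Fintype V] (hP : GoalLOCP) (R : ℕ → V → ZMod P.N → ℕ) (p δ1 : ℝ) (l : ℕ)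
    (hl : l < P.K) (ω ω' : P.Om) (h : ∀ i ∈ Wl P l, ω i = ω' i) (hb : Bad P R p δ1 l ω) :
    Bad P R p δ1 l ω' := by
  obtain ⟨x, hx, hc⟩ := hb
  refine ⟨x, hx, ?_⟩
  have hj : x.1 < P.J := Finset.mem_range.1 (Finset.mem_product.1 hx).1
  have h1 := hP V P R l ω ω' hl (fun w hw => h w hw)
  have h2 := hP V P R l ω' ω hl (fun w hw => (h w hw).symm)
  have e : ∀ v, (v ∈ Sl P l ∧ Ev P R x.1 x.2 v ω') ↔ (v ∈ Sl P l ∧ Ev P R x.1 x.2 v ω) := by
    intro v
    constructor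
    · rintro ⟨hv, hT, hcl⟩
      have hv' := (mem_Sl P l v).1 hv
      exact ⟨hv, (h2 v hv').2 x.1 hj hT, by rw [(h1 v hv').1, hcl]⟩
    · rintro ⟨hv, hT, hcl⟩
      have hv' := (mem_Sl P l v).1 hv
      exact ⟨hv, (h1 v hv').2 x.1 hj hT, by rw [← (h1 v hv').1, hcl]⟩
  rw [Nat.card_congr (Equiv.subtypeEquivRight e)]
  exact hc

theorem Wl_deg (l : Fin P.K) :
    Nat.card {l' : Fin P.K // ¬ Disjoint (Wl P (l : ℕ)) (Wl P (l' : ℕ))} ≤ 3 := by
  obtain ⟨S, hS, hn⟩ := near_three P.K (l : ℕ)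
  refine le_trans ?_ hS
  rw [← Fintype.card_coe S, ← Nat.card_eq_fintype_card]
  refine Nat.card_le_card_of_injective
    (fun x : {l' : Fin P.K // ¬ Disjoint (Wl P (l : ℕ)) (Wl P (l' : ℕ))} =>
      (⟨(x.1 : ℕ), hn _ x.1.2 ?_⟩ : {b // b ∈ S})) ?_
  · obtain ⟨w, hw1, hw2⟩ := Set.not_disjoint_iff.1 x.2
    have a1 : P.part w = (l : ℕ) ∨ P.part w + 1 = (l : ℕ) ∨ ((l : ℕ) = 0 ∧ P.part w + 1 = P.K) := hw1
    have a2 : P.part w = (x.1 : ℕ) ∨ P.part w + 1 = (x.1 : ℕ) ∨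
        ((x.1 : ℕ) = 0 ∧ P.part w + 1 = P.K) := hw2
    have h1 := l.2
    have h2 := x.1.2
    unfold near
    omega
  · intro x y hxy
    have := congrArg Subtype.val hxy
    exact Subtype.ext (Fin.ext this)

/-- The bound for the probability of the bad event. -/
theorem Bad_prob [Fintype V] (hCH : GoalCHEB) (R : ℕ → V → ZMod P.N → ℕ) (Reg : V → Set V)
    (hReg1 : ∀ v (ω ω' : P.Om), (∀ w ∈ Reg v, ω w = ω' w) →
      P.cls ω v = P.cls ω' v ∧ ∀ j < P.J, P.T R ω j v → P.T R ω' j v)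
    (Rr : ℕ) (hReg2 : ∀ v, Nat.card {t // ¬ Disjoint (Reg v) (Reg t)} ≤ Rr)
    (p δ1 : ℝ) (hp : 0 < p) (hδ : 0 < δ1)
    (hpr : ∀ j < P.J, ∀ (v : V) (a : Fin P.q), p ≤ Pr (Ev P R j a v))
    (l s : ℕ) (hs : 1 ≤ s) (hsl : s ≤ (Sl P l).card) :
    Pr (Bad P R p δ1 l) ≤ (P.J * P.q : ℝ) * (Rr / (δ1 ^ 2 * p ^ 2 * s)) := by
  refine (Pr_exists_le (Finset.range P.J ×ˢ (Finset.univ : Finset (Fin P.q)))
    (fun x (ω : P.Om) => (Nat.card {v // v ∈ Sl P l ∧ Ev P R x.1 x.2 v ω} : ℝ)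
      ≤ (1 - δ1) * p * (Sl P l).card)).trans ?_
  have hne : (Sl P l).Nonempty := Finset.card_pos.1 (by omega)
  have hspos : (0 : ℝ) < s := by exact_mod_cast hs
  have hcl : (s : ℝ) ≤ (Sl P l).card := by exact_mod_cast hsl
  have key : ∀ x ∈ (Finset.range P.J ×ˢ (Finset.univ : Finset (Fin P.q))),
      Pr (fun ω : P.Om => (Nat.card {v // v ∈ Sl P l ∧ Ev P R x.1 x.2 v ω} : ℝ)
        ≤ (1 - δ1) * p * (Sl P l).card) ≤ Rr / (δ1 ^ 2 * p ^ 2 * s) := by
    intro x hx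
    have hj : x.1 < P.J := Finset.mem_range.1 (Finset.mem_product.1 hx).1
    refine (hCH V P.Lab (Sl P l) (Ev P R x.1 x.2) Reg Rr p δ1 hne hp hδ ?_
      (fun v _ => hReg2 v) (fun v _ => hpr x.1 hj v x.2)).trans ?_
    · intro v ω ω' h hE
      obtain ⟨h1, h2⟩ := hReg1 v ω ω' h
      exact ⟨h2 x.1 hj hE.1, by rw [← h1, hE.2]⟩
    · apply div_le_div_of_nonneg_left (Nat.cast_nonneg _) (by positivity)
      exact mul_le_mul_of_nonneg_left hcl (by positivity)
  refine (Finset.sum_le_sum key).trans ?_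
  rw [Finset.sum_const, Finset.card_product, Finset.card_range, Finset.card_univ, Fintype.card_fin,
    nsmul_eq_mul, Nat.cast_mul]

end

/-- PACKET CORE. -/
theorem goalCORE : GoalGREEDY → GoalCHEB → GoalASM → GoalPRO → GoalREC → GoalLOCP → GoalLOCB →
    GoalCORE := by
  intro hGR hCH hAS hPR hRE hLP hLB D J δ0 hD hJ hδ0
  -- reduction to `δ ≤ 1 / 2`
  set δ : ℝ := min δ0 (1 / 2) with hδdef
  have hδ : 0 < δ := lt_min hδ0 (by norm_num)
  have hδh : δ ≤ 1 / 2 := min_le_right _ _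
  have hδle : δ ≤ δ0 := min_le_left _ _
  set δ1 : ℝ := δ / 2 with hδ1def
  have hδ1 : 0 < δ1 := by positivity
  have hδ1h : δ1 ≤ 1 / 4 := by rw [hδ1def]; linarith
  have hJ0 : (0 : ℝ) < J := by exact_mod_cast (by omega : 0 < J)
  have hD0 : (0 : ℝ) < D := by exact_mod_cast (by omega : 0 < D)
  obtain ⟨L, hL⟩ := exists_nat_ge ((J : ℝ) / δ1)
  have hL0 : (0 : ℝ) < L := lt_of_lt_of_le (by positivity) hL
  have hL1 : 1 ≤ L := by exact_mod_cast hL0
  set q : ℝ := (D : ℝ) + J with hq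
  have hq0 : 0 < q := by positivity
  set p : ℝ := 1 / (q * J) - 1 / (q * L) with hpdef
  have hp1 : (1 - δ1) / (q * J) ≤ p := by
    have h1 : 1 / (q * L) ≤ δ1 / (q * J) := by
      rw [div_le_div_iff₀ (by positivity) (by positivity)]
      have : (J : ℝ) ≤ δ1 * L := by
        rw [div_le_iff₀ hδ1] at hL
        linarith
      nlinarith
    rw [hpdef, sub_div]
    linarith
  have hp0 : 0 < p := lt_of_lt_of_le (by
    apply div_pos
    · linarith
    · positivity) hp1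
  set Rr : ℕ := (3 * D + 1) ^ (2 * (D + 1 + J)) with hRr
  obtain ⟨N0, hN0⟩ := exists_nat_ge (12 * ((J * q) * (Rr / (δ1 ^ 2 * p ^ 2))))
  refine ⟨N0 + 1, ?_⟩
  intro V _ H K part s hK hnear hs hsize
  obtain ⟨κ, hκ1, hκ2⟩ := hGR V H K part D hnear
  let P : Sys V :=
    { H := H, K := K, D := D, J := J, L := L, part := part, κ := κ
      hK := hK, hD := hD, hJ := hJ, hL := hL1, hnear := hnear, hκ := hκ1, hκH := hκ2 }
  have hPq : ((P.q : ℕ) : ℝ) = q := by
    change (((D + J : ℕ)) : ℝ) = q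
    push_cast
    rfl
  obtain ⟨R, hR⟩ := hRE V P
  obtain ⟨Reg, hReg1, hReg2⟩ := hLB V P R
  have hs1 : 1 ≤ s := by omega
  have hs0 : (0 : ℝ) < s := by exact_mod_cast hs1
  have hsl : ∀ l < K, s ≤ (Sl P l).card := by
    intro l hl
    rw [card_Sl]
    exact hsize l hl
  have hpr : ∀ j < P.J, ∀ (v : V) (a : Fin P.q), p ≤ Pr (Ev P R j a v) := by
    intro j hj v a
    have := (hR j hj v a).1
    rw [hPq] at this
    exact this
  have hbad : ∀ l : Fin K, Pr (Bad P R p δ1 (l : ℕ)) ≤ 1 / 12 := by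
    intro l
    refine (Bad_prob P hCH R Reg hReg1 Rr hReg2 p δ1 hp0 hδ1 hpr l s hs1 (hsl l l.2)).trans ?_
    rw [hPq]
    change (J : ℝ) * q * (Rr / (δ1 ^ 2 * p ^ 2 * s)) ≤ 1 / 12
    have h1 : (N0 : ℝ) ≤ s := by exact_mod_cast (by omega : N0 ≤ s)
    have h2 : 12 * ((J * q) * (Rr / (δ1 ^ 2 * p ^ 2))) ≤ s := hN0.trans h1
    have h3 : (J : ℝ) * q * (Rr / (δ1 ^ 2 * p ^ 2 * s)) = ((J * q) * (Rr / (δ1 ^ 2 * p ^ 2))) / s := by
      field_simp
    rw [h3, div_le_iff₀ hs0]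
    linarith
  have hLne : Nonempty P.Lab := labNonempty P
  obtain ⟨ω, hω⟩ := Pool.Agent.Helper51.Girth4.stmtLLL (I := V) (J := Fin K) (L := P.Lab)
    (fun l => Wl P (l : ℕ)) (fun l ω => Bad P R p δ1 (l : ℕ) ω)
    (fun l ω ω' h hb => Bad_loc P hLP R p δ1 l l.2 ω ω' h hb) (1 / 12) 3 hbad (by norm_num)
    (fun l => Wl_deg P l) (by norm_num)
  classical
  let τ : V → ℕ := fun v => if h : ∃ j < J, P.T R ω j v then Classical.choose h else J
  have hτT : ∀ v j, j < J → P.T R ω j v → τ v = j := by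
    intro v j hj hT
    have h : ∃ j < J, P.T R ω j v := ⟨j, hj, hT⟩
    change (if h : ∃ j < J, P.T R ω j v then Classical.choose h else J) = j
    rw [dif_pos h]
    exact P.T_unique R ω (Classical.choose_spec h).2 hT
  have hτle : ∀ v, τ v ≤ J := by
    intro v
    change (if h : ∃ j < J, P.T R ω j v then Classical.choose h else J) ≤ J
    split_ifs with h
    · exact (Classical.choose_spec h).1.le
    · exact le_rfl
  have hTτ : ∀ v, τ v < J → P.T R ω (τ v) v := by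
    intro v hv
    by_cases h : ∃ j < J, P.T R ω j v
    · obtain ⟨j, hj, hT⟩ := h
      rw [hτT v j hj hT]
      exact hT
    · exfalso
      have : τ v = J := dif_neg h
      omega
  set m0 : ℕ := ⌈(1 - δ) * s / (q * J)⌉₊ with hm0
  obtain ⟨σ, hσ⟩ := hAS V H P.N J m0 (P.cls ω) τ P.two_lt_N.le hJ hτle
    (fun u v huv => hPR V P ω u v huv)
    (by
      intro u v huv hc
      by_cases hu : τ u < J
      · obtain ⟨i, hi, hT⟩ := P.T_arc R ω huv hc (hTτ u hu)
        by_cases hi' : i < J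
        · rw [hτT v i hi' hT]
          exact hi
        · have := hτle v
          omega
      · have := hτle v
        omega)
    (by
      intro g j hj
      obtain ⟨l, hl, a, rfl⟩ := P.cl_surj g
      have hnb := hω ⟨l, hl⟩
      have hgt : (1 - δ1) * p * (Sl P l).card <
          (Nat.card {v // v ∈ Sl P l ∧ Ev P R j a v ω} : ℝ) := by
        by_contra hcon
        exact hnb ⟨(j, a), Finset.mem_product.2 ⟨Finset.mem_range.2 hj, Finset.mem_univ _⟩,
          not_lt.1 hcon⟩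
      have hle : Nat.card {v // v ∈ Sl P l ∧ Ev P R j a v ω} ≤
          Nat.card {v // P.cls ω v = P.cl l a ∧ τ v = j} := by
        refine Nat.card_le_card_of_injective
          (fun x : {v // v ∈ Sl P l ∧ Ev P R j a v ω} =>
            (⟨x.1, ?_⟩ : {v // P.cls ω v = P.cl l a ∧ τ v = j})) ?_
        · obtain ⟨v, hv, hT, hc⟩ := x
          have hv' := (mem_Sl P l v).1 hv
          rw [hv'] at hc
          exact ⟨hc, hτT v j hj hT⟩
        · intro x y hxy
          have hxy' := congrArg Subtype.val hxy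
          exact Subtype.ext hxy'
      refine le_trans ?_ hle
      rw [hm0]
      apply Nat.ceil_le.2
      refine le_trans ?_ hgt.le
      have hcl : (s : ℝ) ≤ (Sl P l).card := by exact_mod_cast hsl l hl
      have h1 : (1 - δ) ≤ (1 - δ1) * (1 - δ1) := by
        rw [hδ1def]
        nlinarith
      have h2 : (1 - δ) / (q * J) ≤ (1 - δ1) * p := by
        calc (1 - δ) / (q * J) ≤ (1 - δ1) * (1 - δ1) / (q * J) := by gcongr
          _ = (1 - δ1) * ((1 - δ1) / (q * J)) := by ring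
          _ ≤ (1 - δ1) * p := mul_le_mul_of_nonneg_left hp1 (by linarith)
      have h3 : 0 ≤ (1 - δ1) * p := mul_nonneg (by linarith) hp0.le
      calc (1 - δ) * s / (q * J) = (1 - δ) / (q * J) * s := by ring
        _ ≤ (1 - δ1) * p * s := mul_le_mul_of_nonneg_right h2 hs0.le
        _ ≤ (1 - δ1) * p * (Sl P l).card := mul_le_mul_of_nonneg_left hcl h3)
  refine ⟨σ, fun i k hik => ?_⟩
  have h1 := hσ i k hik
  have h2 : (((J - 2) * m0 : ℕ) : ℝ) ≤
      (((k.val + Fintype.card V - i.val) % Fintype.card V : ℕ) : ℝ) := by exact_mod_cast h1.le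
  refine le_trans ?_ h2
  rw [Nat.cast_mul]
  apply mul_le_mul_of_nonneg_left _ (Nat.cast_nonneg _)
  refine le_trans ?_ (Nat.le_ceil _)
  gcongr

end Pool.Agent.Helper75.Sey
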